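import Mathlib
import Pool.Agent.X318.Crown

/-!
# MP_523fe6_co, Q2

`S_n(m,1)` is real-rooted with nonpositive roots, hence log-concave, for every odd `n = 2r+1 ≥ 3`.
-/

namespace Pool.Agent.Results.MP_523fe6_co.SumLogConcave
open Polynomial Finset Pool.Agent.X318.Crown

/-- `((m choose a))`, as a polynomial in `m` -/
noncomputable def mchoose (a : ℕ) : ℚ[X] :=
  C ((a.factorial : ℚ)⁻¹) * ∏ s ∈ range a, (X + C (s : ℚ))

/-- `S_n(m,t)` for `n = 2r+1`: the outer variable is `t`, the inner one is `m` -/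
noncomputable def S (r : ℕ) : ℚ[X][X] :=
  ∑ i ∈ range r, (∑ s ∈ range (r - i), X ^ (i + 2 * s)) * C (mchoose i * mchoose (2 * r + 1 - i))

/-- coefficient sequence extended by zero to all integers -/
noncomputable def coeffZ (p : ℚ[X]) (l : ℤ) : ℚ := if 0 ≤ l then p.coeff l.toNat else 0

/-! ## Real version -/

noncomputable def h (a : ℕ) : ℝ[X] := C ((a.factorial : ℝ)⁻¹) * ∏ s ∈ range a, (X + C (s : ℝ))

lemma h_succ (a : ℕ) : C ((a : ℝ) + 1) * h (a + 1) = (X + C (a : ℝ)) * h a := by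
  unfold h
  rw [prod_range_succ, Nat.factorial_succ, ← mul_assoc, ← C_mul]
  have : ((a : ℝ) + 1) * (((a + 1) * a.factorial : ℕ) : ℝ)⁻¹ = (a.factorial : ℝ)⁻¹ := by
    push_cast
    field_simp
  rw [this]
  ring

lemma tele (N k : ℕ) (hk : k ≤ N) :
    X * ∑ i ∈ range (k + 1), C ((N : ℝ) + 1 - 2 * i) * (h i * h (N + 1 - i))
      = (X + C (k : ℝ)) * (X + C ((N : ℝ) - k)) * (h k * h (N - k)) := by
  induction k with
  | zero =>
    have h1 := h_succ N
    simp only [zero_add, sum_range_one, Nat.cast_zero, mul_zero, sub_zero, Nat.sub_zero, C_0, add_zero]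
    calc X * (C ((N : ℝ) + 1) * (h 0 * h (N + 1))) = X * h 0 * (C ((N : ℝ) + 1) * h (N + 1)) := by ring
      _ = _ := by rw [h1]; ring
  | succ k ih =>
    rw [sum_range_succ, mul_add, ih (by omega)]
    obtain ⟨M, rfl⟩ := Nat.exists_eq_add_of_le hk
    rw [show k + 1 + M + 1 - (k + 1) = M + 1 by omega, show k + 1 + M - k = M + 1 by omega,
      show k + 1 + M - (k + 1) = M by omega]
    have h1 := h_succ k
    have h2 := h_succ M
    have e1 : (C (((k + 1 : ℕ) : ℝ)) : ℝ[X]) = C ((k : ℝ) + 1) := by push_cast; rfl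
    have e2 : (C ((((k + 1 + M : ℕ)) : ℝ) - (k : ℝ)) : ℝ[X]) = C ((M : ℝ) + 1) := by
      congr 1; push_cast; ring
    have e3 : (C ((((k + 1 + M : ℕ)) : ℝ) - ((k + 1 : ℕ) : ℝ)) : ℝ[X]) = C (M : ℝ) := by
      congr 1; push_cast; ring
    have e4 : (C ((((k + 1 + M : ℕ)) : ℝ) + 1 - 2 * ((k + 1 : ℕ) : ℝ)) : ℝ[X]) = C ((M : ℝ) + 1) - C ((k : ℝ) + 1) := by
      rw [← C_sub]; congr 1; push_cast; ring
    rw [e1, e2, e3, e4]
    linear_combination (-(X + C ((M : ℝ) + 1)) * h (M + 1)) * h1 + (X + C ((k : ℝ) + 1)) * h (k + 1) * h2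

noncomputable def V (n : ℕ) : ℝ[X] := ∑ i ∈ range (n + 1), h i * h (n - i)

lemma V_succ (n : ℕ) : C ((n : ℝ) + 1) * V (n + 1) = (C 2 * X + C (n : ℝ)) * V n := by
  unfold V
  have e1 : C ((n : ℝ) + 1) * ∑ i ∈ range (n + 1 + 1), h i * h (n + 1 - i)
      = ∑ i ∈ range (n + 1 + 1), C (i : ℝ) * (h i * h (n + 1 - i))
        + ∑ i ∈ range (n + 1 + 1), C ((n : ℝ) + 1 - i) * (h i * h (n + 1 - i)) := by
    rw [mul_sum, ← sum_add_distrib]
    refine sum_congr rfl fun i _ => ?_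
    rw [← add_mul, ← C_add]
    congr 2
    ring
  have e2 : ∑ i ∈ range (n + 1 + 1), C (i : ℝ) * (h i * h (n + 1 - i))
      = ∑ i ∈ range (n + 1), (X + C (i : ℝ)) * (h i * h (n - i)) := by
    rw [sum_range_succ']
    simp only [Nat.cast_zero, C_0, zero_mul, add_zero]
    refine sum_congr rfl fun i _ => ?_
    rw [show n + 1 - (i + 1) = n - i by omega, ← mul_assoc, ← mul_assoc]
    congr 1
    push_cast
    exact h_succ i
  have e3 : ∑ i ∈ range (n + 1 + 1), C ((n : ℝ) + 1 - i) * (h i * h (n + 1 - i))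
      = ∑ i ∈ range (n + 1), (X + C ((n : ℝ) - i)) * (h i * h (n - i)) := by
    rw [sum_range_succ]
    have : (C ((n : ℝ) + 1 - ((n + 1 : ℕ) : ℝ)) : ℝ[X]) = 0 := by push_cast; simp
    rw [this, zero_mul, add_zero]
    refine sum_congr rfl fun i hi => ?_
    have hi' : i ≤ n := by have := mem_range.mp hi; omega
    obtain ⟨M, rfl⟩ := Nat.exists_eq_add_of_le hi'
    rw [show i + M + 1 - i = M + 1 by omega, show i + M - i = M by omega]
    have := h_succ M
    have t1 : (C (((i + M : ℕ) : ℝ) + 1 - i) : ℝ[X]) = C ((M : ℝ) + 1) := by congr 1; push_cast; ring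
    have t2 : (C (((i + M : ℕ) : ℝ) - i) : ℝ[X]) = C (M : ℝ) := by congr 1; push_cast; ring
    rw [t1, t2]
    linear_combination (h i) * this
  rw [e1, e2, e3, ← sum_add_distrib, mul_sum]
  refine sum_congr rfl fun i _ => ?_
  rw [← add_mul]
  congr 1
  rw [C_sub]
  rw [show (C (2 : ℝ) : ℝ[X]) = 1 + 1 by rw [← C_1, ← C_add]; norm_num]
  ring

lemma V_eq (n : ℕ) : V n = C ((n.factorial : ℝ)⁻¹) * ∏ s ∈ range n, (C 2 * X + C (s : ℝ)) := by
  induction n with
  | zero => simp [V, h]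
  | succ n ih =>
    have hn : (C ((n : ℝ) + 1) : ℝ[X]) ≠ 0 := by
      rw [Ne, C_eq_zero]; positivity
    refine mul_left_cancel₀ hn ?_
    rw [V_succ, ih, prod_range_succ, Nat.factorial_succ, ← mul_assoc (C ((n : ℝ) + 1)), ← C_mul]
    have : ((n : ℝ) + 1) * (((n + 1) * n.factorial : ℕ) : ℝ)⁻¹ = (n.factorial : ℝ)⁻¹ := by
      push_cast
      field_simp
    rw [this]
    ring

lemma V_half (r : ℕ) : V (2 * r + 1) = C 2 * ∑ i ∈ range (r + 1), h i * h (2 * r + 1 - i) := by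
  unfold V
  rw [show 2 * r + 1 + 1 = (r + 1) + (r + 1) by ring, sum_range_add]
  have : ∑ x ∈ range (r + 1), h (r + 1 + x) * h (2 * r + 1 - (r + 1 + x))
      = ∑ i ∈ range (r + 1), h i * h (2 * r + 1 - i) := by
    rw [← sum_range_reflect]
    refine sum_congr rfl fun i hi => ?_
    have hi' : i ≤ r := by have := mem_range.mp hi; omega
    rw [show r + 1 + (r + 1 - 1 - i) = 2 * r + 1 - i by omega,
      show 2 * r + 1 - (2 * r + 1 - i) = i by omega, mul_comm]
  rw [this, show (C (2 : ℝ) : ℝ[X]) = 1 + 1 by rw [← C_1, ← C_add]; norm_num]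
  ring

noncomputable def P (r : ℕ) : ℝ[X] := ∏ s ∈ range r, (X + C ((s : ℝ) + 1))
noncomputable def B (r : ℕ) : ℝ[X] := ∏ s ∈ range r, (X + C ((s : ℝ) + 1 / 2))

lemma h_P (r : ℕ) : (X + C (r : ℝ)) * h r = C ((r.factorial : ℝ)⁻¹) * (X * P r) := by
  unfold h P
  have e := prod_range_succ (fun s : ℕ => (X + C (s : ℝ) : ℝ[X])) r
  have e2 := prod_range_succ' (fun s : ℕ => (X + C (s : ℝ) : ℝ[X])) r
  simp only [Nat.cast_zero, C_0, add_zero, Nat.cast_add, Nat.cast_one] at e2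
  rw [e] at e2
  linear_combination C ((r.factorial : ℝ)⁻¹) * e2

lemma prod_two (r : ℕ) : ∏ s ∈ range (2 * r + 1), (C 2 * X + C (s : ℝ))
    = C (2 ^ (2 * r + 1)) * (X * P r * B r) := by
  induction r with
  | zero => simp [P, B]
  | succ r ih =>
    rw [show 2 * (r + 1) + 1 = 2 * r + 1 + 1 + 1 by ring, prod_range_succ, prod_range_succ, ih]
    unfold P B
    rw [prod_range_succ, prod_range_succ]
    have e1 : (C 2 * X + C (((2 * r + 1 : ℕ)) : ℝ) : ℝ[X]) = C 2 * (X + C ((r : ℝ) + 1 / 2)) := by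
      have : (((2 * r + 1 : ℕ)) : ℝ) = 2 * ((r : ℝ) + 1 / 2) := by push_cast; ring
      rw [mul_add, ← C_mul, this]
    have e2 : (C 2 * X + C (((2 * r + 1 + 1 : ℕ)) : ℝ) : ℝ[X]) = C 2 * (X + C ((r : ℝ) + 1)) := by
      have : (((2 * r + 1 + 1 : ℕ)) : ℝ) = 2 * ((r : ℝ) + 1) := by push_cast; ring
      rw [mul_add, ← C_mul, this]
    have e3 : (C (2 ^ (2 * r + 1 + 1 + 1)) : ℝ[X]) = C (2 ^ (2 * r + 1)) * C 2 * C 2 := by
      have : (2 : ℝ) ^ (2 * r + 1 + 1 + 1) = 2 ^ (2 * r + 1) * 2 * 2 := by ring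
      rw [this, C_mul, C_mul]
    rw [e1, e2, e3]
    ring

noncomputable def S1 (r : ℕ) : ℝ[X] := ∑ i ∈ range r, C ((r : ℝ) - i) * (h i * h (2 * r + 1 - i))

noncomputable def al (r : ℕ) : ℝ := ((r.factorial : ℝ)⁻¹) ^ 2 / 2
noncomputable def be (r : ℕ) : ℝ := (((2 * r + 1).factorial : ℝ)⁻¹) * 2 ^ (2 * r + 1) / 4

noncomputable def Q (r : ℕ) : ℝ[X] := C (al r) * P r - C (be r) * B r

lemma S1_eq (r : ℕ) : S1 r = X * P r * Q r := by
  have hne : (C 4 * X : ℝ[X]) ≠ 0 := mul_ne_zero (by rw [Ne, C_eq_zero]; norm_num) X_ne_zero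
  refine mul_left_cancel₀ hne ?_
  have t := tele (2 * r) r (by omega)
  rw [show 2 * r - r = r by omega] at t
  have e0 : (C (((2 * r : ℕ) : ℝ) - (r : ℝ)) : ℝ[X]) = C (r : ℝ) := by congr 1; push_cast; ring
  rw [e0] at t
  have v := V_half r
  rw [V_eq, prod_two] at v
  have hp := h_P r
  have s1 : C 4 * S1 r = C 2 * (∑ i ∈ range (r + 1), C (((2 * r : ℕ) : ℝ) + 1 - 2 * i) * (h i * h (2 * r + 1 - i)))
      - C 2 * ∑ i ∈ range (r + 1), h i * h (2 * r + 1 - i) := by
    have : S1 r = ∑ i ∈ range (r + 1), C ((r : ℝ) - i) * (h i * h (2 * r + 1 - i)) := by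
      rw [sum_range_succ, S1]; simp
    rw [this, mul_sum, mul_sum, mul_sum, ← sum_sub_distrib]
    refine sum_congr rfl fun i _ => ?_
    have e : (C 4 * C ((r : ℝ) - i) : ℝ[X]) = C 2 * C (((2 * r : ℕ) : ℝ) + 1 - 2 * i) - C 2 := by
      rw [← C_mul, ← C_mul, ← C_sub]
      congr 1
      push_cast
      ring
    linear_combination (h i * h (2 * r + 1 - i)) * e
  have q1 : (C (al r) : ℝ[X]) * C 4 = C 2 * C ((r.factorial : ℝ)⁻¹) ^ 2 := by
    rw [← C_mul, ← C_pow, ← C_mul]; congr 1; unfold al; ring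
  have q2 : (C (be r) : ℝ[X]) * C 4 = C (((2 * r + 1).factorial : ℝ)⁻¹) * C (2 ^ (2 * r + 1)) := by
    rw [← C_mul, ← C_mul]; congr 1; unfold be; ring
  unfold Q
  have lhs : C 4 * X * S1 r = C 2 * ((X + C (r : ℝ)) * (X + C (r : ℝ)) * (h r * h r))
      - X * (C (((2 * r + 1).factorial : ℝ)⁻¹) * (C (2 ^ (2 * r + 1)) * (X * P r * B r))) := by
    rw [v, ← t]
    linear_combination X * s1
  rw [lhs]
  have sq : (X + C (r : ℝ)) * (X + C (r : ℝ)) * (h r * h r)
      = (C ((r.factorial : ℝ)⁻¹) * (X * P r)) * (C ((r.factorial : ℝ)⁻¹) * (X * P r)) := by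
    rw [← hp]; ring
  rw [sq]
  linear_combination (-(X * P r * X * P r)) * q1 + (X * X * P r * B r) * q2

/-! ## Roots -/

lemma P_eval_zero (r j : ℕ) (hj : j < r) : (P r).eval (-((j : ℝ) + 1)) = 0 := by
  unfold P
  rw [eval_prod]
  refine prod_eq_zero (mem_range.mpr hj) ?_
  simp

lemma B_eval (r : ℕ) (x : ℝ) : (B r).eval x = ∏ s ∈ range r, (x + ((s : ℝ) + 1 / 2)) := by
  unfold B; rw [eval_prod]; simp

lemma B_shift (r : ℕ) (x : ℝ) : (B r).eval (x - 1) * (x + r - 1 / 2) = (x - 1 / 2) * (B r).eval x := by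
  rw [B_eval, B_eval]
  induction r with
  | zero => simp
  | succ r ih =>
    rw [prod_range_succ, prod_range_succ]
    push_cast
    linear_combination (x + r + 1 / 2) * ih

lemma B_ne (r j : ℕ) : (B r).eval (-((j : ℝ) + 1)) ≠ 0 := by
  rw [B_eval, prod_ne_zero_iff]
  intro s _ hs
  have h2 : (2 * (s : ℝ) + 1) = 2 * ((j : ℝ) + 1) := by linarith
  have h3 : 2 * s + 1 = 2 * (j + 1) := by exact_mod_cast h2
  omega

lemma be_pos (r : ℕ) : 0 < be r := by unfold be; positivity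
lemma al_pos (r : ℕ) : 0 < al r := by unfold al; positivity

lemma fact_ge (r : ℕ) : (4 : ℝ) ^ r * (r.factorial : ℝ) ^ 2 ≤ ((2 * r + 1).factorial : ℝ) := by
  induction r with
  | zero => simp
  | succ r ih =>
    rw [show 2 * (r + 1) + 1 = (2 * r + 1) + 1 + 1 by ring, Nat.factorial_succ (2 * r + 1 + 1),
      Nat.factorial_succ (2 * r + 1), Nat.factorial_succ r]
    push_cast
    have h1 : (0 : ℝ) ≤ (2 * r + 1 + 1 + 1) * (2 * r + 1 + 1) := by positivity
    have h2 : (0 : ℝ) ≤ (4 : ℝ) ^ r * (r.factorial : ℝ) ^ 2 := by positivity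
    have h3 : (4 : ℝ) * ((r : ℝ) + 1) ^ 2 ≤ (2 * r + 1 + 1 + 1) * (2 * r + 1 + 1) := by nlinarith [(Nat.cast_nonneg r : (0:ℝ) ≤ r)]
    calc (4 : ℝ) ^ (r + 1) * (((r : ℝ) + 1) * r.factorial) ^ 2
        = (4 * ((r : ℝ) + 1) ^ 2) * (4 ^ r * (r.factorial : ℝ) ^ 2) := by ring
      _ ≤ ((2 * r + 1 + 1 + 1) * (2 * r + 1 + 1)) * ((2 * r + 1).factorial : ℝ) := mul_le_mul h3 ih h2 h1
      _ = _ := by ring

lemma fact_gt (r : ℕ) (hr : 1 ≤ r) : (4 : ℝ) ^ r * (r.factorial : ℝ) ^ 2 < ((2 * r + 1).factorial : ℝ) := by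
  obtain ⟨r, rfl⟩ := Nat.exists_eq_add_of_le hr
  rw [add_comm 1 r]
  have ih := fact_ge r
  rw [show 2 * (r + 1) + 1 = (2 * r + 1) + 1 + 1 by ring, Nat.factorial_succ (2 * r + 1 + 1),
    Nat.factorial_succ (2 * r + 1), Nat.factorial_succ r]
  push_cast
  have h1 : (0 : ℝ) < (2 * r + 1 + 1 + 1) * (2 * r + 1 + 1) := by positivity
  have h2 : (0 : ℝ) < (4 : ℝ) ^ r * (r.factorial : ℝ) ^ 2 := by positivity
  have h3 : (4 : ℝ) * ((r : ℝ) + 1) ^ 2 < (2 * r + 1 + 1 + 1) * (2 * r + 1 + 1) := by nlinarith [(Nat.cast_nonneg r : (0:ℝ) ≤ r)]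
  calc (4 : ℝ) ^ (r + 1) * (((r : ℝ) + 1) * r.factorial) ^ 2
      = (4 * ((r : ℝ) + 1) ^ 2) * (4 ^ r * (r.factorial : ℝ) ^ 2) := by ring
    _ < ((2 * r + 1 + 1 + 1) * (2 * r + 1 + 1)) * (4 ^ r * (r.factorial : ℝ) ^ 2) := mul_lt_mul_of_pos_right h3 h2
    _ ≤ ((2 * r + 1 + 1 + 1) * (2 * r + 1 + 1)) * ((2 * r + 1).factorial : ℝ) := mul_le_mul_of_nonneg_left ih h1.le
    _ = _ := by ring

lemma al_gt_be (r : ℕ) (hr : 1 ≤ r) : be r < al r := by
  have h := fact_gt r hr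
  unfold al be
  have h1 : (0 : ℝ) < (r.factorial : ℝ) := by positivity
  have h2 : (0 : ℝ) < ((2 * r + 1).factorial : ℝ) := by positivity
  rw [show (2 : ℝ) ^ (2 * r + 1) = 2 * 4 ^ r by rw [pow_succ, pow_mul]; norm_num; ring]
  rw [show (((2 * r + 1).factorial : ℝ)⁻¹) * (2 * 4 ^ r) / 4 = (4 ^ r / ((2 * r + 1).factorial : ℝ)) / 2 by
    field_simp; ring]
  rw [show ((r.factorial : ℝ)⁻¹) ^ 2 / 2 = (1 / (r.factorial : ℝ) ^ 2) / 2 by field_simp]
  have : 4 ^ r / ((2 * r + 1).factorial : ℝ) < 1 / (r.factorial : ℝ) ^ 2 := by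
    rw [div_lt_div_iff₀ h2 (by positivity)]
    linarith
  linarith

lemma B_zero (r : ℕ) : (B r).eval 0 * (4 ^ r * (r.factorial : ℝ)) = ((2 * r).factorial : ℝ) := by
  rw [B_eval]
  induction r with
  | zero => simp
  | succ r ih =>
    rw [prod_range_succ, show 2 * (r + 1) = 2 * r + 1 + 1 by ring, Nat.factorial_succ (2 * r + 1),
      Nat.factorial_succ (2 * r), Nat.factorial_succ r]
    push_cast
    rw [← ih]
    ring

lemma P_zero (r : ℕ) : (P r).eval 0 = (r.factorial : ℝ) := by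
  unfold P
  rw [eval_prod]
  induction r with
  | zero => simp
  | succ r ih =>
    rw [prod_range_succ, ih, Nat.factorial_succ]
    simp
    ring

lemma Q_zero_pos (r : ℕ) (hr : 1 ≤ r) : 0 < (Q r).eval 0 := by
  unfold Q
  rw [eval_sub, eval_mul, eval_mul, eval_C, eval_C, P_zero]
  have hb := B_zero r
  have h1 : (0 : ℝ) < (r.factorial : ℝ) := by positivity
  have h3 : (0 : ℝ) < ((2 * r).factorial : ℝ) := by positivity
  have hB : (B r).eval 0 = ((2 * r).factorial : ℝ) / (4 ^ r * (r.factorial : ℝ)) := by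
    rw [← hb]; field_simp
  rw [hB]
  unfold al be
  rw [show (2 * r + 1).factorial = (2 * r + 1) * (2 * r).factorial from Nat.factorial_succ _]
  rw [show (2 : ℝ) ^ (2 * r + 1) = 2 * 4 ^ r by rw [pow_succ, pow_mul]; norm_num; ring]
  push_cast
  have h5 : (1 : ℝ) ≤ r := by exact_mod_cast hr
  have : ((r.factorial : ℝ)⁻¹) ^ 2 / 2 * (r.factorial : ℝ) - ((2 * (r : ℝ) + 1) * ((2 * r).factorial : ℝ))⁻¹ * (2 * 4 ^ r) / 4 *
      (((2 * r).factorial : ℝ) / (4 ^ r * (r.factorial : ℝ))) = (r : ℝ) / ((2 * r + 1) * (r.factorial : ℝ)) := by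
    field_simp
    ring
  rw [this]
  positivity

lemma Q_sign (r j : ℕ) (hj : j + 1 < r) :
    (Q r).eval (-((j : ℝ) + 2)) * (Q r).eval (-((j : ℝ) + 1)) < 0 := by
  have e1 : (Q r).eval (-((j : ℝ) + 1)) = - be r * (B r).eval (-((j : ℝ) + 1)) := by
    unfold Q
    rw [eval_sub, eval_mul, eval_mul, eval_C, eval_C, P_eval_zero r j (by omega)]
    ring
  have e2 : (Q r).eval (-((j : ℝ) + 2)) = - be r * (B r).eval (-((j : ℝ) + 2)) := by
    unfold Q
    rw [eval_sub, eval_mul, eval_mul, eval_C, eval_C]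
    have := P_eval_zero r (j + 1) hj
    push_cast at this
    rw [show ((j : ℝ) + 2) = (j : ℝ) + 1 + 1 by ring, this]
    ring
  have s := B_shift r (-((j : ℝ) + 1))
  rw [show (-((j : ℝ) + 1) - 1) = -((j : ℝ) + 2) by ring] at s
  rw [e1, e2]
  have hne := B_ne r j
  set y := (B r).eval (-((j : ℝ) + 1))
  set z := (B r).eval (-((j : ℝ) + 2))
  have hr : ((j : ℝ) + 1) + 1 ≤ r := by exact_mod_cast hj
  have hpos : (0 : ℝ) < -((j : ℝ) + 1) + r - 1 / 2 := by linarith
  have hy : 0 < y ^ 2 := by positivity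
  have hj0 : (0 : ℝ) ≤ j := by positivity
  have hzy : z * y * (-((j : ℝ) + 1) + r - 1 / 2) < 0 := by
    have : z * y * (-((j : ℝ) + 1) + r - 1 / 2) = -(((j : ℝ) + 3 / 2) * y ^ 2) := by
      linear_combination y * s
    rw [this]
    have : 0 < ((j : ℝ) + 3 / 2) * y ^ 2 := by positivity
    linarith
  have hzy' : z * y < 0 := by
    by_contra hcon
    push Not at hcon
    have := mul_nonneg hcon hpos.le
    linarith
  have hb := be_pos r
  have : -be r * z * (-be r * y) = (be r) ^ 2 * (z * y) := by ring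
  rw [this]
  exact mul_neg_of_pos_of_neg (by positivity) hzy'

lemma exists_root (r j : ℕ) (hj : j + 1 < r) :
    ∃ x : ℝ, (j : ℝ) + 1 < x ∧ x < (j : ℝ) + 2 ∧ (Q r).eval (-x) = 0 := by
  have hs := Q_sign r j hj
  have hc : ContinuousOn (fun x => (Q r).eval x) (Set.Icc (-((j : ℝ) + 2)) (-((j : ℝ) + 1))) :=
    (Q r).continuous.continuousOn
  have hle : (-((j : ℝ) + 2)) ≤ (-((j : ℝ) + 1)) := by linarith
  rcases mul_neg_iff.mp hs with ⟨h1, h2⟩ | ⟨h1, h2⟩
  · obtain ⟨x, hx, hx0⟩ := intermediate_value_Ioo' hle hc (Set.mem_Ioo.mpr ⟨h2, h1⟩)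
    refine ⟨-x, by linarith [hx.2], by linarith [hx.1], ?_⟩
    simpa using hx0
  · obtain ⟨x, hx, hx0⟩ := intermediate_value_Ioo hle hc (Set.mem_Ioo.mpr ⟨h1, h2⟩)
    refine ⟨-x, by linarith [hx.2], by linarith [hx.1], ?_⟩
    simpa using hx0

lemma P_monic (r : ℕ) : (P r).Monic := monic_prod_of_monic _ _ fun i _ => monic_X_add_C _
lemma B_monic (r : ℕ) : (B r).Monic := monic_prod_of_monic _ _ fun i _ => monic_X_add_C _
lemma P_deg (r : ℕ) : (P r).natDegree = r := by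
  unfold P
  rw [natDegree_prod_of_monic _ _ fun i _ => monic_X_add_C _, sum_congr rfl fun i _ => natDegree_X_add_C _]
  simp
lemma B_deg (r : ℕ) : (B r).natDegree = r := by
  unfold B
  rw [natDegree_prod_of_monic _ _ fun i _ => monic_X_add_C _, sum_congr rfl fun i _ => natDegree_X_add_C _]
  simp

lemma Q_coeff (r : ℕ) : (Q r).coeff r = al r - be r := by
  unfold Q
  have h1 : (P r).coeff r = 1 := by
    have := (P_monic r).coeff_natDegree; rwa [P_deg] at this
  have h2 : (B r).coeff r = 1 := by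
    have := (B_monic r).coeff_natDegree; rwa [B_deg] at this
  rw [coeff_sub, coeff_C_mul, coeff_C_mul, h1, h2]
  ring

lemma Q_deg (r : ℕ) : (Q r).natDegree ≤ r := by
  unfold Q
  refine (natDegree_sub_le _ _).trans ?_
  refine max_le ?_ ?_
  · exact (natDegree_C_mul_le _ _).trans (P_deg r).le
  · exact (natDegree_C_mul_le _ _).trans (B_deg r).le

/-- factorization of `Q` -/
lemma Q_fact (r : ℕ) (hr : 1 ≤ r) : ∃ (x : ℕ → ℝ) (c a : ℝ), (∀ j, j + 1 < r → 0 < x j) ∧ 0 < c ∧ 0 < a ∧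
    Q r = C a * ((X + C c) * ∏ j ∈ range (r - 1), (X + C (x j))) := by
  have hex : ∀ j : ℕ, ∃ x : ℝ, j + 1 < r → ((j : ℝ) + 1 < x ∧ x < (j : ℝ) + 2 ∧ (Q r).eval (-x) = 0) := by
    intro j
    by_cases hj : j + 1 < r
    · obtain ⟨x, hx⟩ := exists_root r j hj
      exact ⟨x, fun _ => hx⟩
    · exact ⟨0, fun h => absurd h hj⟩
  choose x hx using hex
  have hlt : ∀ j, j ∈ range (r - 1) → j + 1 < r := fun j hj => by have := mem_range.mp hj; omega
  have hxpos : ∀ j, j + 1 < r → 0 < x j := fun j hj => by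
    have := (hx j hj).1
    have h0 : (0 : ℝ) ≤ j := by positivity
    linarith
  have hdvd : (∏ j ∈ range (r - 1), (X + C (x j))) ∣ Q r := by
    refine Finset.prod_dvd_of_coprime ?_ ?_
    · intro i hi j hj hij
      have hi' := hlt i (by simpa using hi)
      have hj' := hlt j (by simpa using hj)
      have h1 := hx i hi'
      have h2 := hx j hj'
      have hne : x i ≠ x j := by
        intro he
        rcases lt_or_gt_of_ne hij with h | h
        · have : (i : ℝ) + 1 ≤ j := by exact_mod_cast h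
          linarith [h1.2.1, h2.1]
        · have : (j : ℝ) + 1 ≤ i := by exact_mod_cast h
          linarith [h2.2.1, h1.1]
      show IsCoprime (X + C (x i)) (X + C (x j))
      have := isCoprime_X_sub_C_of_isUnit_sub (a := -x i) (b := -x j) (R := ℝ) (by
        rw [isUnit_iff_ne_zero]; intro hh; apply hne; linarith)
      simpa using this
    · intro j hj
      have := (hx j (hlt j hj)).2.2
      have h2 := dvd_iff_isRoot.mpr (show (Q r).IsRoot (-x j) from this)
      simpa using h2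
  obtain ⟨L, hL⟩ := hdvd
  set D : ℝ[X] := ∏ j ∈ range (r - 1), (X + C (x j)) with hD
  have Dm : D.Monic := monic_prod_of_monic _ _ fun i _ => monic_X_add_C _
  have Dd : D.natDegree = r - 1 := by
    rw [hD, natDegree_prod_of_monic _ _ fun i _ => monic_X_add_C _]; simp
  have hQ0 := Q_zero_pos r hr
  have hQne : Q r ≠ 0 := fun h => by rw [h] at hQ0; simp at hQ0
  have hLne : L ≠ 0 := fun h => by rw [h, mul_zero] at hL; exact hQne hL
  have hdeg : L.natDegree ≤ 1 := by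
    have h1 := Q_deg r
    rw [hL, natDegree_mul Dm.ne_zero hLne, Dd] at h1
    omega
  obtain ⟨a, b, hab⟩ := exists_eq_X_add_C_of_natDegree_le_one hdeg
  have ha : a = al r - be r := by
    rw [← Q_coeff, hL, hab]
    obtain ⟨r', rfl⟩ := Nat.exists_eq_add_of_le hr
    rw [add_comm 1 r'] at *
    rw [show r' + 1 - 1 = r' by omega] at Dd
    rw [mul_add, coeff_add, mul_comm D (C a * X), mul_assoc, coeff_C_mul, coeff_X_mul, mul_comm D (C b), coeff_C_mul]
    have c1 : D.coeff r' = 1 := by have := Dm.coeff_natDegree; rwa [Dd] at this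
    have c2 : D.coeff (r' + 1) = 0 := coeff_eq_zero_of_natDegree_lt (by omega)
    rw [c1, c2]; ring
  have hapos : 0 < a := by rw [ha]; linarith [al_gt_be r hr]
  have hbpos : 0 < b := by
    have h1 : (Q r).eval 0 = D.eval 0 * b := by rw [hL, hab]; simp
    have h2 : 0 < D.eval 0 := by
      rw [hD, eval_prod]
      refine prod_pos fun j hj => ?_
      simpa using hxpos j (hlt j hj)
    rw [h1] at hQ0
    exact (mul_pos_iff_of_pos_left h2).mp hQ0
  refine ⟨x, b / a, a, hxpos, by positivity, hapos, ?_⟩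
  rw [hL, hab, mul_add, mul_comm (C a) _, ← hD]
  have : (C a * C (b / a) : ℝ[X]) = C b := by
    rw [← C_mul]; congr 1; field_simp
  rw [← this]
  ring

lemma ulc_C_mul {p : ℝ[X]} (hp : ULC p) {a : ℝ} (ha : 0 ≤ a) : ULC (C a * p) := by
  have hb : ∀ k, bb (C a * p) k = a * bb p k := fun k => by
    unfold bb; rw [coeff_C_mul]; ring
  refine ⟨fun k => by rw [coeff_C_mul]; exact mul_nonneg ha (hp.1 k), fun i j hij => ?_⟩
  rw [hb, hb, hb, hb]
  have := mul_le_mul_of_nonneg_left (hp.2 i j hij) (mul_nonneg ha ha)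
  linarith

/-- the real-rooted factorization of `S_n(m,1)` -/
lemma S1_fact (r : ℕ) (hr : 1 ≤ r) : ∃ (x : ℕ → ℝ) (a : ℝ), (∀ j, j < 2 * r + 1 → 0 ≤ x j) ∧ 0 < a ∧
    S1 r = C a * ∏ j ∈ range (2 * r + 1), (X + C (x j)) := by
  obtain ⟨x, c, a, hx, hc, ha, hQ⟩ := Q_fact r hr
  refine ⟨fun j => if j < r - 1 then x j else if j = r - 1 then c else ((j - r : ℕ) : ℝ), a, ?_, ha, ?_⟩
  · intro j _
    show (0 : ℝ) ≤ if j < r - 1 then x j else if j = r - 1 then c else ((j - r : ℕ) : ℝ)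
    split_ifs with h1 h2
    · exact (hx j (by omega)).le
    · exact hc.le
    · positivity
  · rw [S1_eq, hQ]
    rw [show 2 * r + 1 = r + (r + 1) by ring, prod_range_add]
    have e1 : ∏ j ∈ range r, (X + C (if j < r - 1 then x j else if j = r - 1 then c else ((j - r : ℕ) : ℝ)))
        = (∏ j ∈ range (r - 1), (X + C (x j))) * (X + C c) := by
      obtain ⟨r', rfl⟩ := Nat.exists_eq_add_of_le hr
      rw [add_comm 1 r', prod_range_succ, show r' + 1 - 1 = r' by omega]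
      congr 1
      · refine prod_congr rfl fun j hj => ?_
        rw [if_pos (mem_range.mp hj)]
      · simp
    have e2 : ∏ j ∈ range (r + 1), (X + C (if r + j < r - 1 then x (r + j) else if r + j = r - 1 then c else ((r + j - r : ℕ) : ℝ)))
        = X * P r := by
      have e3 := prod_range_succ' (fun s : ℕ => (X + C (s : ℝ) : ℝ[X])) r
      simp only [Nat.cast_zero, C_0, add_zero, Nat.cast_add, Nat.cast_one] at e3
      unfold P
      rw [mul_comm X, ← e3]
      refine prod_congr rfl fun j _ => ?_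
      rw [if_neg (by omega), if_neg (by omega), show r + j - r = j by omega]
    rw [e1, e2]
    ring

lemma S1_ulc (r : ℕ) (hr : 1 ≤ r) : ULC (S1 r) := by
  obtain ⟨x, a, hx, ha, hS⟩ := S1_fact r hr
  rw [hS]
  exact ulc_C_mul (ulc_prod _ _ fun i hi => hx i (mem_range.mp hi)) ha.le

lemma map_mchoose (a : ℕ) : (mchoose a).map (algebraMap ℚ ℝ) = h a := by
  unfold mchoose h
  rw [Polynomial.map_mul, map_C, Polynomial.map_prod]
  congr 1
  · congr 1; simp
  · refine prod_congr rfl fun s _ => ?_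
    simp

lemma eval_S (r : ℕ) : (S r).eval 1 = ∑ i ∈ range r, C ((r : ℚ) - i) * (mchoose i * mchoose (2 * r + 1 - i)) := by
  unfold S
  rw [eval_finsetSum]
  refine sum_congr rfl fun i hi => ?_
  rw [eval_mul, eval_C, eval_finsetSum]
  congr 1
  have : i ≤ r := (mem_range.mp hi).le
  simp [Nat.cast_sub this]

lemma map_S (r : ℕ) : ((S r).eval 1).map (algebraMap ℚ ℝ) = S1 r := by
  rw [eval_S, Polynomial.map_sum]
  unfold S1
  refine sum_congr rfl fun i _ => ?_
  rw [Polynomial.map_mul, Polynomial.map_mul, map_C, map_mchoose, map_mchoose]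
  congr 2
  simp

/-- **MP_523fe6_co, Q2.**  For every odd `n = 2r+1 ≥ 3` the polynomial `S_n(m,1)` is log-concave
(its coefficient sequence, extended by `0`, satisfies `a_l^2 ≥ a_{l-1} a_{l+1}` for all integers `l`);
moreover over the reals it is a positive constant times a product of `n` linear factors `m + x_j` with
`x_j ≥ 0`, so it is real-rooted. -/
theorem result (r : ℕ) (hr : 1 ≤ r) :
    (∀ l : ℤ, coeffZ ((S r).eval 1) (l - 1) * coeffZ ((S r).eval 1) (l + 1) ≤ coeffZ ((S r).eval 1) l ^ 2) ∧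
    (∃ (x : ℕ → ℝ) (a : ℝ), (∀ j, j < 2 * r + 1 → 0 ≤ x j) ∧ 0 < a ∧
      ((S r).eval 1).map (algebraMap ℚ ℝ) = C a * ∏ j ∈ range (2 * r + 1), (X + C (x j))) := by
  refine ⟨fun l => ?_, ?_⟩
  · rcases lt_or_ge (l - 1) 0 with hl | hl
    · have : coeffZ ((S r).eval 1) (l - 1) = 0 := by unfold coeffZ; rw [if_neg (by omega)]
      rw [this, zero_mul]
      positivity
    · obtain ⟨k, hk⟩ := Int.eq_ofNat_of_zero_le hl
      have hu := S1_ulc r hr
      have hn := ulc_newton hu k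
      have hco : ∀ i, (S1 r).coeff i = (((S r).eval 1).coeff i : ℝ) := fun i => by
        rw [← map_S, coeff_map]; rfl
      have e1 : coeffZ ((S r).eval 1) (l - 1) = ((S r).eval 1).coeff k := by
        unfold coeffZ; rw [if_pos (by omega)]; congr 1; omega
      have e2 : coeffZ ((S r).eval 1) (l + 1) = ((S r).eval 1).coeff (k + 2) := by
        unfold coeffZ; rw [if_pos (by omega)]; congr 1; omega
      have e3 : coeffZ ((S r).eval 1) l = ((S r).eval 1).coeff (k + 1) := by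
        unfold coeffZ; rw [if_pos (by omega)]; congr 1; omega
      rw [e1, e2, e3]
      have h0 := hu.1 k
      have h2 := hu.1 (k + 2)
      have h02 := mul_nonneg h0 h2
      have hk0 : (0 : ℝ) ≤ k := by positivity
      have : (S1 r).coeff k * (S1 r).coeff (k + 2) ≤ (S1 r).coeff (k + 1) ^ 2 := by
        by_contra hcon
        push Not at hcon
        nlinarith [sq_nonneg ((S1 r).coeff (k + 1))]
      rw [hco, hco, hco] at this
      exact_mod_cast this
  · rw [map_S]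
    exact S1_fact r hr

end Pool.Agent.Results.MP_523fe6_co.SumLogConcave
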